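import Mathlib

set_option autoImplicit false

/-!
# Averages of fractional parts along an arithmetic progression
-/

namespace Pool.Agent.helper45.C0

open Finset

/-- a block of `N` terms near `β + i a / N` -/
theorem blk (N : ℕ) (hN : 0 < N) (a : ℤ) (ha : IsCoprime a (N : ℤ)) (θ β : ℝ)
    (hθ : ∀ i : ℕ, i < N → |(i : ℝ) * (θ - a / N)| ≤ 1 / N) :
    (N : ℝ) / 2 - 5 / 2 ≤ ∑ i ∈ range N, Int.fract (β + i * θ) := by
  have hNR : (0 : ℝ) < N := by exact_mod_cast hN
  have hNZ : (N : ℤ) ≠ 0 := by exact_mod_cast hN.ne'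
  set m : ℤ := ⌊(N : ℝ) * β⌋ with hm
  set k : ℕ → ℕ := fun i => ((m + i * a) % (N : ℤ)).toNat with hk
  have hkz : ∀ i : ℕ, ((k i : ℕ) : ℤ) = (m + i * a) % (N : ℤ) := fun i =>
    Int.toNat_of_nonneg (Int.emod_nonneg _ hNZ)
  have hklt : ∀ i : ℕ, k i < N := by
    intro i
    have h1 := Int.emod_lt_of_pos (m + i * a) (by exact_mod_cast hN : (0 : ℤ) < N)
    rw [← hkz i] at h1
    exact_mod_cast h1
  have hinj : Set.InjOn k (range N : Finset ℕ) := by
    intro i hi j hj hij
    have hi' : i < N := by simpa using hi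
    have hj' : j < N := by simpa using hj
    have h1 : (m + i * a) % (N : ℤ) = (m + j * a) % (N : ℤ) := by
      rw [← hkz i, ← hkz j, hij]
    have h2 : (N : ℤ) ∣ (m + j * a) - (m + i * a) := Int.ModEq.dvd h1
    have h3 : (N : ℤ) ∣ ((j : ℤ) - i) * a := by
      have e : (m + j * a) - (m + i * a) = ((j : ℤ) - i) * a := by ring
      rwa [e] at h2
    have h4 : (N : ℤ) ∣ (j : ℤ) - i := ha.symm.dvd_of_dvd_mul_right h3
    have h5 : (j : ℤ) - i = 0 := by
      apply Int.eq_zero_of_abs_lt_dvd h4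
      rw [abs_lt]
      constructor <;> omega
    omega
  have himg : (range N).image k = range N := by
    apply Finset.eq_of_subset_of_card_le
    · intro x hx
      obtain ⟨i, -, rfl⟩ := Finset.mem_image.1 hx
      exact mem_range.2 (hklt i)
    · rw [Finset.card_image_of_injOn hinj]
  set g : ℕ → ℝ := fun t => ((t : ℝ) - 1) / N - if t = N - 1 then 1 else 0 with hg
  have hpt : ∀ i ∈ range N, g (k i) ≤ Int.fract (β + i * θ) := by
    intro i hi
    have hi' := mem_range.1 hi
    have hf0 := Int.fract_nonneg (β + i * θ)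
    simp only [hg]
    split_ifs with h
    · have h1 : ((k i : ℕ) : ℝ) ≤ N - 1 := by
        have : ((k i : ℕ) : ℝ) + 1 ≤ N := by exact_mod_cast hklt i
        linarith
      have h2 : (((k i : ℕ) : ℝ) - 1) / N ≤ 1 := by
        rw [div_le_one hNR]; linarith
      linarith
    · have h1 : ((k i : ℕ) : ℝ) + 2 ≤ N := by
        have := hklt i
        have h2 : k i + 2 ≤ N := by omega
        exact_mod_cast h2
      set z : ℤ := (m + i * a) / (N : ℤ) with hz
      have h3 : (m + i * a : ℤ) = N * z + k i := by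
        rw [hkz i, hz]; exact (Int.mul_ediv_add_emod _ _).symm
      have h3' : (m : ℝ) + i * a = N * z + k i := by exact_mod_cast h3
      have h4 : (m : ℝ) ≤ N * β := Int.floor_le _
      have h5 : (N : ℝ) * β < m + 1 := Int.lt_floor_add_one _
      have h6 := abs_le.1 (hθ i hi')
      have h7 : β + i * θ = z + ((N * β - m + k i) / N + i * (θ - a / N)) := by
        field_simp
        linear_combination h3'
      have h8 : (N * β - m + k i) / N + i * (θ - a / N) < 1 := by
        have : (N * β - m + k i) / N < (N - 1) / N := by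
          apply div_lt_div_of_pos_right _ hNR
          linarith
        have h9 : ((N : ℝ) - 1) / N = 1 - 1 / N := by field_simp
        linarith [h6.2]
      have h9 : ((k i : ℝ) - 1) / N ≤ (N * β - m + k i) / N + i * (θ - a / N) := by
        have : (k i : ℝ) / N ≤ (N * β - m + k i) / N := by
          apply div_le_div_of_nonneg_right _ hNR.le
          linarith
        have h10 : ((k i : ℝ) - 1) / N = (k i : ℝ) / N - 1 / N := by ring
        linarith [h6.1]
      have h10 : ⌊β + i * θ⌋ ≤ z := by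
        have : ⌊β + i * θ⌋ < z + 1 := by
          rw [Int.floor_lt]
          push_cast
          linarith
        omega
      have h11 : (⌊β + i * θ⌋ : ℝ) ≤ z := by exact_mod_cast h10
      have h12 : Int.fract (β + i * θ) = β + i * θ - ⌊β + i * θ⌋ := rfl
      linarith
  have hsum : ∑ i ∈ range N, g (k i) = ∑ t ∈ range N, g t := by
    conv_rhs => rw [← himg]
    rw [Finset.sum_image hinj]
  have hg2 : ∑ t ∈ range N, g t = (N : ℝ) / 2 - 5 / 2 := by
    simp only [hg]
    rw [Finset.sum_sub_distrib, ← Finset.sum_div, Finset.sum_sub_distrib]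
    rw [Finset.sum_ite_eq' (range N) (N - 1) (fun _ => (1 : ℝ)),
      if_pos (mem_range.2 (by omega))]
    have h1 : (∑ t ∈ range N, (t : ℝ)) = N * (N - 1) / 2 := by
      have := Finset.sum_range_id_mul_two N
      have h2 : ((∑ i ∈ range N, i : ℕ) : ℝ) * 2 = N * (N - 1) := by
        obtain ⟨M, rfl⟩ : ∃ M, N = M + 1 := ⟨N - 1, by omega⟩
        have h3 : ((∑ i ∈ range (M + 1), i) * 2 : ℕ) = ((M + 1) * M : ℕ) := by simpa using this
        have h4 : (((∑ i ∈ range (M + 1), i) * 2 : ℕ) : ℝ) = (((M + 1) * M : ℕ) : ℝ) := by rw [h3]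
        push_cast at h4 ⊢
        linarith
      push_cast at h2
      linarith
    rw [h1, Finset.sum_const, card_range, nsmul_eq_mul, mul_one]
    field_simp
    ring
  calc (N : ℝ) / 2 - 5 / 2 = ∑ i ∈ range N, g (k i) := by rw [hsum, hg2]
    _ ≤ _ := Finset.sum_le_sum hpt

/-- `q` blocks -/
theorem blks (N : ℕ) (hN : 0 < N) (a : ℤ) (ha : IsCoprime a (N : ℤ)) (θ β : ℝ)
    (hθ : ∀ i : ℕ, i < N → |(i : ℝ) * (θ - a / N)| ≤ 1 / N) (q : ℕ) :
    (q : ℝ) * ((N : ℝ) / 2 - 5 / 2) ≤ ∑ i ∈ range (N * q), Int.fract (β + i * θ) := by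
  induction q with
  | zero => simp
  | succ q ih =>
    rw [Nat.mul_succ, Finset.sum_range_add]
    have h1 := blk N hN a ha θ (β + (N * q : ℕ) * θ) hθ
    have h2 : ∑ i ∈ range N, Int.fract (β + (N * q : ℕ) * θ + i * θ) =
        ∑ i ∈ range N, Int.fract (β + ((N * q + i : ℕ) : ℝ) * θ) := by
      apply Finset.sum_congr rfl
      intro i _
      congr 1
      push_cast
      ring
    rw [h2] at h1
    push_cast at h1 ih ⊢
    linarith

/-- a long progression with a difference which is not close to a rational number of small denominator -/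
theorem avg (C J : ℕ) (hC : 16 ≤ C) (hCJ : C ≤ J) (θ β : ℝ)
    (h : ∀ N : ℕ, 1 ≤ N → N ≤ C → ∀ a : ℤ, (C : ℝ) / J < |N * θ - a|) :
    (J : ℝ) * (1 / 2 - 3 / C) ≤ ∑ j ∈ range J, Int.fract (β + j * θ) := by
  have hC0 : (0 : ℝ) < C := by exact_mod_cast (by omega : 0 < C)
  have hJ0 : (0 : ℝ) < J := by exact_mod_cast (by omega : 0 < J)
  set Q : ℕ := J / C with hQ
  have hQ0 : 0 < Q := Nat.div_pos hCJ (by omega)
  have hQ1 : (Q : ℝ) * C ≤ J := by exact_mod_cast Nat.div_mul_le_self J C
  have hQ2 : (J : ℝ) < C * (Q + 1) := by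
    have := Nat.lt_mul_div_succ J (by omega : 0 < C)
    exact_mod_cast this
  obtain ⟨r, hr1, hr2⟩ := Real.exists_rat_abs_sub_le_and_den_le θ hQ0
  have hd0 : 0 < r.den := r.den_pos
  have hdR : (0 : ℝ) < r.den := by exact_mod_cast hd0
  have hr3 : (r : ℝ) = r.num / r.den := by exact_mod_cast (Rat.num_div_den r).symm
  have hQR : (0 : ℝ) < Q + 1 := by positivity
  have hlt : 1 / ((Q : ℝ) + 1) < C / J := by
    rw [div_lt_div_iff₀ hQR hJ0]
    linarith
  have hN : C < r.den := by
    by_contra hcon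
    push Not at hcon
    have h1 := h r.den hd0 hcon r.num
    have h2 : |(r.den : ℝ) * θ - r.num| ≤ 1 / (Q + 1) := by
      have e : (r.den : ℝ) * θ - r.num = r.den * (θ - r) := by
        rw [hr3]; field_simp
      rw [e, abs_mul, abs_of_pos hdR]
      calc (r.den : ℝ) * |θ - r| ≤ r.den * (1 / ((Q + 1) * r.den)) :=
            mul_le_mul_of_nonneg_left hr1 hdR.le
        _ = 1 / (Q + 1) := by field_simp
    linarith
  set N := r.den with hNdef
  have hcop : IsCoprime r.num (N : ℤ) := by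
    rw [Int.isCoprime_iff_gcd_eq_one]
    exact r.reduced
  have hθ : ∀ i : ℕ, i < N → |(i : ℝ) * (θ - r.num / N)| ≤ 1 / N := by
    intro i hi
    rw [← hr3, abs_mul, abs_of_nonneg (Nat.cast_nonneg i)]
    have hi' : (i : ℝ) ≤ N := by exact_mod_cast hi.le
    have hNQ : (N : ℝ) ≤ Q + 1 := by
      have : (N : ℝ) ≤ Q := by exact_mod_cast hr2
      linarith
    calc (i : ℝ) * |θ - r| ≤ N * (1 / ((Q + 1) * N)) :=
          mul_le_mul hi' hr1 (abs_nonneg _) hdR.le
      _ = 1 / (Q + 1) := by field_simp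
      _ ≤ 1 / N := one_div_le_one_div_of_le hdR hNQ
  set q := J / N with hq
  have h1 := blks N hd0 r.num hcop θ β hθ q
  have h2 : ∑ i ∈ range (N * q), Int.fract (β + i * θ) ≤ ∑ i ∈ range J, Int.fract (β + i * θ) := by
    apply Finset.sum_le_sum_of_subset_of_nonneg
    · intro x hx
      rw [mem_range] at hx ⊢
      exact lt_of_lt_of_le hx (Nat.mul_div_le J N)
    · intro i _ _
      exact Int.fract_nonneg _
  refine le_trans ?_ (le_trans h1 h2)
  have hNR : (17 : ℝ) ≤ N := by exact_mod_cast (by omega : 17 ≤ N)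
  have hNC : (C : ℝ) ≤ N := by exact_mod_cast hN.le
  have hq1 : (J : ℝ) < N * (q + 1) := by
    have := Nat.lt_mul_div_succ J hd0
    exact_mod_cast this
  have hq2 : (J : ℝ) / N - 1 ≤ q := by
    rw [sub_le_iff_le_add, div_le_iff₀ hdR]
    linarith
  have h3 : ((J : ℝ) / N - 1) * ((N : ℝ) / 2 - 5 / 2) ≤ q * ((N : ℝ) / 2 - 5 / 2) := by
    apply mul_le_mul_of_nonneg_right hq2
    linarith
  refine le_trans ?_ h3
  have h4 : ((J : ℝ) / N - 1) * ((N : ℝ) / 2 - 5 / 2) =
      J / 2 - 5 / 2 * (J / N) - N / 2 + 5 / 2 := by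
    field_simp
    ring
  rw [h4]
  have h5 : (J : ℝ) / N ≤ J / C := div_le_div_of_nonneg_left hJ0.le hC0 hNC
  have h6 : (N : ℝ) ≤ J / C := by
    rw [le_div_iff₀ hC0]
    have : (N : ℝ) ≤ Q := by exact_mod_cast hr2
    calc (N : ℝ) * C ≤ Q * C := mul_le_mul_of_nonneg_right this hC0.le
      _ ≤ J := hQ1
  have h7 : (J : ℝ) * (1 / 2 - 3 / C) = J / 2 - 3 * (J / C) := by
    field_simp
  rw [h7]
  linarith

end Pool.Agent.helper45.C0
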