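import Pool.Agent.helper45.C0.Avg
import Pool.Agent.helper75.MS.Cyc

set_option autoImplicit false

/-!
# From the digit sum condition to bounded linear relations
-/

namespace Pool.Agent.helper45.C0

open Finset Pool.Agent.helper75.MS

/-- the sum of the rotations of `x` -/
theorem rot_sum {p n x : ℕ} (hp : 1 < p) (_hn : 0 < n) (hx : x < p ^ n - 1) :
    (p - 1) * ∑ k ∈ range n, ((p ^ k * x) % (p ^ n - 1)) = (p ^ n - 1) * S p x := by
  have hpn : 1 ≤ p ^ n := Nat.one_le_pow _ _ (by omega)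
  set M : ℕ := p ^ n - 1 with hM
  have hM1 : p ^ n = M + 1 := by omega
  have hM0 : 0 < M := by omega
  set y : ℕ → ℕ := fun k => (p ^ k * x) % M with hy
  set c : ℕ → ℕ := fun k => (p * y k) / M with hc
  have hylt : ∀ k, y k < M := fun k => Nat.mod_lt _ hM0
  have hy0 : y 0 = x := by simp only [hy, pow_zero, one_mul]; exact Nat.mod_eq_of_lt hx
  have hyn : y n = x := by
    simp only [hy]
    rw [hM1, add_mul, one_mul, add_comm, Nat.add_mul_mod_self_left]
    exact Nat.mod_eq_of_lt hx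
  have hstep : ∀ k, p * y k = M * c k + y (k + 1) := by
    intro k
    have h1 : y (k + 1) = (p * y k) % M := by
      simp only [hy]
      rw [pow_succ', mul_assoc, Nat.mul_mod_mod]
    rw [h1, hc]
    exact (Nat.div_add_mod _ _).symm
  have hclt : ∀ k, c k < p := by
    intro k
    apply Nat.div_lt_of_lt_mul
    rw [mul_comm M p]
    exact Nat.mul_lt_mul_of_pos_left (hylt k) (by omega)
  -- telescoping
  have htel : ∀ m, p ^ m * x = M * (∑ i ∈ range m, c (m - 1 - i) * p ^ i) + y m := by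
    intro m
    induction m with
    | zero => simp [hy0]
    | succ m ih =>
      rw [Finset.sum_range_succ']
      have e : ∑ i ∈ range m, c (m + 1 - 1 - (i + 1)) * p ^ (i + 1) =
          p * ∑ i ∈ range m, c (m - 1 - i) * p ^ i := by
        rw [Finset.mul_sum]
        apply Finset.sum_congr rfl
        intro i _
        rw [show m + 1 - 1 - (i + 1) = m - 1 - i by omega, pow_succ]
        ring
      rw [e, pow_succ', mul_assoc, ih, mul_add, hstep m]
      simp only [pow_zero, mul_one, Nat.sub_zero, Nat.add_sub_cancel]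
      ring
  have h1 : x = ∑ i ∈ range n, c (n - 1 - i) * p ^ i := by
    have h2 := htel n
    rw [hyn, hM1, add_mul, one_mul] at h2
    have h3 : M * x = M * ∑ i ∈ range n, c (n - 1 - i) * p ^ i := by omega
    exact Nat.eq_of_mul_eq_mul_left hM0 h3
  have h2 : S p x = ∑ i ∈ range n, c i := by
    conv_lhs => rw [h1]
    rw [S_sum hp n (fun i => c (n - 1 - i)) (fun i _ => hclt _)]
    exact Finset.sum_range_reflect c n
  have h3 : ∑ k ∈ range n, p * y k = M * ∑ k ∈ range n, c k + ∑ k ∈ range n, y (k + 1) := by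
    rw [Finset.mul_sum, ← Finset.sum_add_distrib]
    exact Finset.sum_congr rfl fun k _ => hstep k
  have h4 : ∑ k ∈ range n, y (k + 1) = ∑ k ∈ range n, y k := by
    have h5 := Finset.sum_range_succ y n
    have h6 := Finset.sum_range_succ' y n
    rw [hyn] at h5
    rw [hy0] at h6
    omega
  rw [h4, ← Finset.mul_sum] at h3
  rw [h2]
  obtain ⟨q, rfl⟩ : ∃ q, p = q + 1 := ⟨p - 1, by omega⟩
  rw [Nat.add_sub_cancel]
  have h5 : (q + 1) * ∑ k ∈ range n, y k = q * ∑ k ∈ range n, y k + ∑ k ∈ range n, y k := by ring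
  have h6 : q * ∑ k ∈ range n, y k = M * ∑ k ∈ range n, c k := by omega
  exact h6

theorem sum_update {n J : ℕ} (i : Fin n) (F : (Fin n → Fin J) → ℝ) :
    ∑ j : Fin n → Fin J, ∑ t : Fin J, F (Function.update j i t) = J * ∑ j : Fin n → Fin J, F j := by
  classical
  have hinv : Function.Involutive
      (fun z : (Fin n → Fin J) × Fin J => ((Function.update z.1 i z.2, z.1 i) :
        (Fin n → Fin J) × Fin J)) := by
    rintro ⟨j, t⟩
    simp
  have h1 : ∑ z : (Fin n → Fin J) × Fin J, F (Function.update z.1 i z.2) =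
      ∑ z : (Fin n → Fin J) × Fin J, F z.1 :=
    Equiv.sum_comp hinv.toPerm (fun z : (Fin n → Fin J) × Fin J => F z.1)
  have h2 : ∑ z : (Fin n → Fin J) × Fin J, F (Function.update z.1 i z.2) =
      ∑ j : Fin n → Fin J, ∑ t : Fin J, F (Function.update j i t) := by
    rw [Fintype.sum_prod_type]
  rw [← h2, h1, Fintype.sum_prod_type, Finset.mul_sum]
  apply Finset.sum_congr rfl
  intro j _
  simp

/-- the number of digits below `J` -/
theorem upper {p n L d J : ℕ} (hp : 3 < p) (hn : 0 < n) (hL : L ≤ n) (H : HS p n L d)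
    (hJ : J + 1 < p) (j : Fin n → Fin J) :
    ∑ k ∈ range n, Int.fract (∑ i : Fin n, ((j i : ℕ) : ℝ) *
      (((p ^ ((i : ℕ) + k) * d : ℕ) : ℝ) / ((p ^ n - 1 : ℕ) : ℝ))) ≤
      n * J / ((p - 1 : ℕ) : ℝ) + (n - L) := by
  have hpn : p ≤ p ^ n := by
    calc p = p ^ 1 := (pow_one p).symm
      _ ≤ p ^ n := Nat.pow_le_pow_right (by omega) hn
  set M : ℕ := p ^ n - 1 with hM
  have hM0 : 0 < M := by omega
  have hMR : (0 : ℝ) < M := by exact_mod_cast hM0
  have hPR : (0 : ℝ) < ((p - 1 : ℕ) : ℝ) := by exact_mod_cast (by omega : 0 < p - 1)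
  have hLR : (L : ℝ) ≤ n := by exact_mod_cast hL
  set e : ℕ → ℕ := fun i => if h : i < n then (j ⟨i, h⟩ : ℕ) else 0 with he
  have he1 : ∀ i : Fin n, e i = (j i : ℕ) := by
    intro i
    simp only [he, i.2, dif_pos]
  have hlt : ∀ i < n, e i < p := by
    intro i hi
    have := (j ⟨i, hi⟩).2
    simp only [he, hi, dif_pos]
    omega
  set X : ℕ := ∑ i ∈ range n, e i * p ^ i with hX
  set x : ℕ := (d * X) % M with hx
  have hxlt : x < M := Nat.mod_lt _ hM0
  have hfr : ∀ k, Int.fract (∑ i : Fin n, ((j i : ℕ) : ℝ) *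
      (((p ^ ((i : ℕ) + k) * d : ℕ) : ℝ) / (M : ℝ))) = ((p ^ k * x) % M : ℕ) / (M : ℝ) := by
    intro k
    have h1 : (∑ i : Fin n, ((j i : ℕ) : ℝ) * (((p ^ ((i : ℕ) + k) * d : ℕ) : ℝ) / (M : ℝ))) =
        ((p ^ k * (d * X) : ℕ) : ℝ) / M := by
      rw [hX, Finset.sum_range]
      push_cast
      rw [Finset.mul_sum, Finset.mul_sum, Finset.sum_div]
      apply Finset.sum_congr rfl
      intro i _
      rw [he1 i]
      rw [pow_add]
      ring
    rw [h1, Int.fract_div_natCast_eq_div_natCast_mod, hx, Nat.mul_mod_mod]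
  rw [Finset.sum_congr rfl fun k _ => hfr k, ← Finset.sum_div]
  have hrot := rot_sum (by omega : 1 < p) hn (hM ▸ hxlt)
  rw [← hM] at hrot
  have hrotR : ((p - 1 : ℕ) : ℝ) * ∑ k ∈ range n, (((p ^ k * x) % M : ℕ) : ℝ) =
      M * (S p x : ℝ) := by
    have : (((p - 1) * ∑ k ∈ range n, ((p ^ k * x) % M) : ℕ) : ℝ) = ((M * S p x : ℕ) : ℝ) := by
      rw [hrot]
    rw [Nat.cast_mul, Nat.cast_mul, Nat.cast_sum] at this
    exact this
  have hS : (∑ k ∈ range n, (((p ^ k * x) % M : ℕ) : ℝ)) / M = (S p x : ℝ) / ((p - 1 : ℕ) : ℝ) := by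
    rw [div_eq_div_iff hMR.ne' hPR.ne']
    linarith
  rw [hS, div_le_iff₀ hPR]
  have hrhs : ((n : ℝ) * J / ((p - 1 : ℕ) : ℝ) + (n - L)) * ((p - 1 : ℕ) : ℝ) =
      n * J + (n - L) * ((p - 1 : ℕ) : ℝ) := by
    field_simp
  rw [hrhs]
  rcases Nat.eq_zero_or_pos X with h0 | h0
  · have : S p x = 0 := by
      rw [hx, h0, mul_zero, Nat.zero_mod]
      simp [S]
    rw [this, Nat.cast_zero]
    have h1 : (0 : ℝ) ≤ n * J := by positivity
    have h2 : (0 : ℝ) ≤ (n - L) * ((p - 1 : ℕ) : ℝ) := mul_nonneg (by linarith) hPR.le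
    linarith
  · have hXlt : X ≤ p ^ n - 2 := by
      have h1 := sum_compl n e hlt
      have h2 : 1 ≤ ∑ i ∈ range n, (p - 1 - e i) * p ^ i := by
        apply one_le_sum (by omega)
        apply Finset.sum_pos
        · intro i hi
          have hi' := mem_range.1 hi
          have := (j ⟨i, hi'⟩).2
          simp only [he, hi', dif_pos]
          omega
        · exact ⟨0, mem_range.2 hn⟩
      omega
    have h1 := H X h0 hXlt
    rw [← hM, ← hx, hX, S_sum (by omega) n e hlt] at h1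
    have h2 : ∑ i ∈ range n, e i ≤ n * J := by
      calc ∑ i ∈ range n, e i ≤ ∑ i ∈ range n, J := by
            apply Finset.sum_le_sum
            intro i hi
            have hi' := mem_range.1 hi
            have := (j ⟨i, hi'⟩).2
            simp only [he, hi', dif_pos]
            omega
        _ = n * J := by simp
    have h3 : S p x + L * (p - 1) ≤ n * J + n * (p - 1) := by omega
    have h4 : (S p x : ℝ) + L * ((p - 1 : ℕ) : ℝ) ≤ n * J + n * ((p - 1 : ℕ) : ℝ) := by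
      exact_mod_cast h3
    linarith

/-- every rotation is close to a rational number of small denominator -/
theorem close {p n L d J : ℕ} (hp : 3 < p) (hn : 0 < n) (hL : L ≤ n) (hL2 : n < 2 * L)
    (H : HS p n L d) (hJ : 8 * n * J ≤ p - 1) (hJC : 16 * n ≤ J) (l : ℕ) (hl : l < n) :
    ∃ N : ℕ, 1 ≤ N ∧ N ≤ 16 * n ∧ ∃ a : ℤ,
      |(N : ℝ) * (((p ^ l * d : ℕ) : ℝ) / ((p ^ n - 1 : ℕ) : ℝ)) - a| ≤ ((16 * n : ℕ) : ℝ) / J := by
  by_contra hcon
  push Not at hcon
  have hpn : p ≤ p ^ n := by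
    calc p = p ^ 1 := (pow_one p).symm
      _ ≤ p ^ n := Nat.pow_le_pow_right (by omega) hn
  have hJp : J + 1 < p := by
    have h1 : 1 * J ≤ 8 * n * J := Nat.mul_le_mul_right _ (by omega)
    have h2 : 2 * J ≤ 8 * n * J := Nat.mul_le_mul_right _ (by omega)
    omega
  have hJ0 : 0 < J := by omega
  have hJR : (0 : ℝ) < J := by exact_mod_cast hJ0
  have hnR : (0 : ℝ) < n := by exact_mod_cast hn
  set M : ℕ := p ^ n - 1 with hM
  have hM0 : 0 < M := by omega
  have hM1 : p ^ n = M + 1 := by omega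
  have hMR : (0 : ℝ) < M := by exact_mod_cast hM0
  have hPR : (0 : ℝ) < ((p - 1 : ℕ) : ℝ) := by exact_mod_cast (by omega : 0 < p - 1)
  set θ : ℕ → ℝ := fun i => ((p ^ i * d : ℕ) : ℝ) / (M : ℝ) with hθ
  set Φ : ℕ → (Fin n → Fin J) → ℝ := fun k j =>
    Int.fract (∑ i : Fin n, ((j i : ℕ) : ℝ) * θ ((i : ℕ) + k)) with hΦ
  have hlow : ∀ k < n, (J : ℝ) ^ n * (1 / 2 - 3 / ((16 * n : ℕ) : ℝ)) ≤
      ∑ j : Fin n → Fin J, Φ k j := by
    intro k hk
    obtain ⟨i0, z, hz⟩ : ∃ (i0 : Fin n) (z : ℤ), θ ((i0 : ℕ) + k) = θ l + z := by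
      rcases Nat.lt_or_ge l k with h | h
      · refine ⟨⟨l + n - k, by omega⟩, ((p ^ l * d : ℕ) : ℤ), ?_⟩
        simp only [hθ]
        rw [show l + n - k + k = l + n by omega, pow_add, hM1]
        push_cast
        field_simp
        ring
      · refine ⟨⟨l - k, by omega⟩, 0, ?_⟩
        simp only
        rw [show l - k + k = l by omega]
        simp
    have h1 : ∀ N : ℕ, 1 ≤ N → N ≤ 16 * n → ∀ a : ℤ,
        ((16 * n : ℕ) : ℝ) / J < |(N : ℝ) * θ ((i0 : ℕ) + k) - a| := by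
      intro N hN1 hN2 a
      have h2 := hcon N hN1 hN2 (a - N * z)
      rw [hz]
      have e : (N : ℝ) * (θ l + z) - a = N * θ l - ((a - N * z : ℤ) : ℝ) := by
        push_cast; ring
      rw [e]
      exact h2
    have h2 : ∀ j : Fin n → Fin J, (J : ℝ) * (1 / 2 - 3 / ((16 * n : ℕ) : ℝ)) ≤
        ∑ t : Fin J, Φ k (Function.update j i0 t) := by
      intro j
      have h3 := avg (16 * n) J (by omega) hJC (θ ((i0 : ℕ) + k))
        (∑ i ∈ univ.erase i0, ((j i : ℕ) : ℝ) * θ ((i : ℕ) + k)) h1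
      rw [Finset.sum_range] at h3
      refine le_trans h3 (le_of_eq ?_)
      apply Finset.sum_congr rfl
      intro t _
      simp only [hΦ]
      congr 1
      rw [← Finset.add_sum_erase univ _ (mem_univ i0), Function.update_self, add_comm]
      congr 1
      apply Finset.sum_congr rfl
      intro i hi
      rw [Function.update_of_ne (Finset.ne_of_mem_erase hi)]
    have h3 := Finset.sum_le_sum fun j (_ : j ∈ (univ : Finset (Fin n → Fin J))) => h2 j
    rw [sum_update i0 (Φ k), Finset.sum_const, nsmul_eq_mul, Finset.card_univ] at h3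
    rw [Fintype.card_fun, Fintype.card_fin, Fintype.card_fin] at h3
    push_cast at h3 ⊢
    have h4 : (J : ℝ) * ((J : ℝ) ^ n * (1 / 2 - 3 / (16 * n))) ≤ J * ∑ j, Φ k j := by
      refine le_trans (le_of_eq ?_) h3
      ring
    exact le_of_mul_le_mul_left h4 hJR
  have hup : ∀ j : Fin n → Fin J, ∑ k ∈ range n, Φ k j ≤ n * J / ((p - 1 : ℕ) : ℝ) + (n - L) :=
    fun j => upper hp hn hL H hJp j
  have h1 : ∑ k ∈ range n, ∑ j : Fin n → Fin J, Φ k j ≤
      (J : ℝ) ^ n * (n * J / ((p - 1 : ℕ) : ℝ) + (n - L)) := by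
    rw [Finset.sum_comm]
    have h2 := Finset.sum_le_sum fun j (_ : j ∈ (univ : Finset (Fin n → Fin J))) => hup j
    rw [Finset.sum_const, nsmul_eq_mul, Finset.card_univ, Fintype.card_fun, Fintype.card_fin,
      Fintype.card_fin] at h2
    push_cast at h2 ⊢
    exact h2
  have h2 : (n : ℝ) * ((J : ℝ) ^ n * (1 / 2 - 3 / ((16 * n : ℕ) : ℝ))) ≤
      ∑ k ∈ range n, ∑ j : Fin n → Fin J, Φ k j := by
    have h3 := Finset.sum_le_sum fun k (hk : k ∈ range n) => hlow k (mem_range.1 hk)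
    rw [Finset.sum_const, nsmul_eq_mul, card_range] at h3
    exact h3
  have h3 := le_trans h2 h1
  have hJn : (0 : ℝ) < (J : ℝ) ^ n := by positivity
  have h4 : (n : ℝ) * (1 / 2 - 3 / ((16 * n : ℕ) : ℝ)) ≤ n * J / ((p - 1 : ℕ) : ℝ) + (n - L) := by
    have h5 : (J : ℝ) ^ n * ((n : ℝ) * (1 / 2 - 3 / ((16 * n : ℕ) : ℝ))) ≤
        (J : ℝ) ^ n * (n * J / ((p - 1 : ℕ) : ℝ) + (n - L)) := by
      refine le_trans (le_of_eq ?_) h3
      ring
    exact le_of_mul_le_mul_left h5 hJn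
  have h5 : (n : ℝ) * (1 / 2 - 3 / ((16 * n : ℕ) : ℝ)) = n / 2 - 3 / 16 := by
    push_cast
    field_simp
  have h6 : (n : ℝ) * J / ((p - 1 : ℕ) : ℝ) ≤ 1 / 8 := by
    rw [div_le_iff₀ hPR]
    have : ((8 * n * J : ℕ) : ℝ) ≤ ((p - 1 : ℕ) : ℝ) := by exact_mod_cast hJ
    rw [Nat.cast_mul, Nat.cast_mul] at this
    push_cast at this ⊢
    linarith
  have h7 : (n : ℝ) + 1 ≤ 2 * L := by exact_mod_cast hL2
  linarith

/-- the relation -/
theorem rel {p n d N : ℕ} {E : ℝ} (hn : 0 < n) (hp : 1 < p)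
    (h : ∀ l < n, ∃ a : ℤ,
      |(N : ℝ) * (((p ^ l * d : ℕ) : ℝ) / ((p ^ n - 1 : ℕ) : ℝ)) - a| ≤ E) :
    ∃ b : ℕ → ℤ, (∀ i < n, |(b i : ℝ)| ≤ (p + 1) * E) ∧
      (N : ℤ) * d ≡ ∑ i ∈ range n, b i * (p : ℤ) ^ i [ZMOD ((p ^ n - 1 : ℕ) : ℤ)] := by
  have hpn : p ≤ p ^ n := by
    calc p = p ^ 1 := (pow_one p).symm
      _ ≤ p ^ n := Nat.pow_le_pow_right (by omega) hn
  set M : ℕ := p ^ n - 1 with hM
  have hM0 : 0 < M := by omega
  have hM1 : p ^ n = M + 1 := by omega
  have hMR : (0 : ℝ) < M := by exact_mod_cast hM0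
  choose! a ha using h
  set A : ℕ → ℤ := fun l => if l < n then a l else a 0 + N * d with hA
  have hAb : ∀ l ≤ n, |(N : ℝ) * (((p ^ l * d : ℕ) : ℝ) / (M : ℝ)) - A l| ≤ E := by
    intro l hl
    rcases Nat.lt_or_ge l n with h1 | h1
    · simp only [hA, if_pos h1]
      exact ha l h1
    · obtain rfl : l = n := le_antisymm hl h1
      simp only [hA, lt_irrefl, if_false]
      have h2 := ha 0 hn
      have e : (N : ℝ) * (((p ^ l * d : ℕ) : ℝ) / (M : ℝ)) - ((a 0 + N * d : ℤ) : ℝ) =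
          (N : ℝ) * (((p ^ 0 * d : ℕ) : ℝ) / (M : ℝ)) - a 0 := by
        rw [hM1]
        push_cast
        field_simp
        ring
      rw [e]
      exact h2
  set b : ℕ → ℤ := fun i => A (n - i) - p * A (n - 1 - i) with hb
  refine ⟨b, ?_, ?_⟩
  · intro i hi
    have h1 := hAb (n - i) (by omega)
    have h2 := hAb (n - 1 - i) (by omega)
    have e : ((b i : ℤ) : ℝ) = p * ((N : ℝ) * (((p ^ (n - 1 - i) * d : ℕ) : ℝ) / (M : ℝ)) -
        A (n - 1 - i)) - ((N : ℝ) * (((p ^ (n - i) * d : ℕ) : ℝ) / (M : ℝ)) - A (n - i)) := by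
      simp only [hb]
      rw [show n - i = (n - 1 - i) + 1 by omega, pow_succ]
      push_cast
      ring
    rw [e]
    have hp0 : (0 : ℝ) ≤ p := by positivity
    calc |(p : ℝ) * ((N : ℝ) * (((p ^ (n - 1 - i) * d : ℕ) : ℝ) / (M : ℝ)) -
        A (n - 1 - i)) - ((N : ℝ) * (((p ^ (n - i) * d : ℕ) : ℝ) / (M : ℝ)) - A (n - i))|
        ≤ |(p : ℝ) * ((N : ℝ) * (((p ^ (n - 1 - i) * d : ℕ) : ℝ) / (M : ℝ)) -
        A (n - 1 - i))| + |(N : ℝ) * (((p ^ (n - i) * d : ℕ) : ℝ) / (M : ℝ)) - A (n - i)| :=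
          abs_sub _ _
      _ ≤ p * E + E := by
          rw [abs_mul, abs_of_nonneg hp0]
          exact add_le_add (mul_le_mul_of_nonneg_left h2 hp0) h1
      _ = (p + 1) * E := by ring
  · -- telescoping
    have htel : ∀ m ≤ n, ∑ i ∈ range m, (A (m - i) - p * A (m - 1 - i)) * (p : ℤ) ^ i =
        A m - p ^ m * A 0 := by
      intro m
      induction m with
      | zero => intro _; simp
      | succ m ih =>
        intro hm
        rw [Finset.sum_range_succ']
        have e : ∑ i ∈ range m, (A (m + 1 - (i + 1)) - p * A (m + 1 - 1 - (i + 1))) *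
            (p : ℤ) ^ (i + 1) = p * ∑ i ∈ range m, (A (m - i) - p * A (m - 1 - i)) * (p : ℤ) ^ i := by
          rw [Finset.mul_sum]
          apply Finset.sum_congr rfl
          intro i _
          rw [show m + 1 - (i + 1) = m - i by omega, show m + 1 - 1 - (i + 1) = m - 1 - i by omega]
          ring
        rw [e, ih (by omega)]
        simp only [Nat.sub_zero, Nat.add_sub_cancel, pow_zero, mul_one]
        ring
    have h1 := htel n le_rfl
    have h2 : ∑ i ∈ range n, b i * (p : ℤ) ^ i = A n - p ^ n * A 0 := h1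
    rw [h2]
    have h3 : A n = a 0 + N * d := by simp [hA]
    have h4 : A 0 = a 0 := by simp [hA, hn]
    rw [h3, h4]
    have h5 : ((p : ℤ)) ^ n = M + 1 := by exact_mod_cast hM1
    rw [h5]
    apply Int.ModEq.symm
    rw [Int.modEq_iff_dvd]
    exact ⟨a 0, by ring⟩

/-- bounded relation for every `d` with the digit sum condition -/
theorem bounded {p n L d : ℕ} (hp : 3 < p) (hn : 0 < n) (hL : L ≤ n) (hL2 : n < 2 * L)
    (H : HS p n L d) :
    ∃ b : ℕ → ℤ, (∀ i < n, |b i| ≤ ((512 * n ^ 2 * (16 * n).factorial + (128 * n ^ 2 + 1) ^ n : ℕ) : ℤ)) ∧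
      ((16 * n).factorial : ℤ) * d ≡ ∑ i ∈ range n, b i * (p : ℤ) ^ i
        [ZMOD ((p ^ n - 1 : ℕ) : ℤ)] := by
  rcases Nat.lt_or_ge (p - 1) (128 * n ^ 2) with hsm | hbig
  · -- small `p`
    set M : ℕ := p ^ n - 1 with hM
    set X : ℕ := (16 * n).factorial * d with hX
    refine ⟨fun i => if i = 0 then ((X % M : ℕ) : ℤ) else 0, ?_, ?_⟩
    · intro i _
      simp only
      split_ifs
      · rw [abs_of_nonneg (by positivity)]
        have hpn : p ≤ p ^ n := by
          calc p = p ^ 1 := (pow_one p).symm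
            _ ≤ p ^ n := Nat.pow_le_pow_right (by omega) hn
        have h1 : X % M < M := Nat.mod_lt _ (by omega)
        have h2 : p ^ n ≤ (128 * n ^ 2 + 1) ^ n := Nat.pow_le_pow_left (by omega) n
        have h3 : X % M ≤ 512 * n ^ 2 * (16 * n).factorial + (128 * n ^ 2 + 1) ^ n := by omega
        exact_mod_cast h3
      · simp only [abs_zero]
        positivity
    · have h1 : ∑ i ∈ range n, (if i = 0 then ((X % M : ℕ) : ℤ) else 0) * (p : ℤ) ^ i =
          ((X % M : ℕ) : ℤ) := by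
        rw [Finset.sum_eq_single 0]
        · simp
        · intro i _ hi
          simp [hi]
        · intro h
          exact absurd (mem_range.2 hn) h
      rw [h1]
      have h2 : ((16 * n).factorial : ℤ) * d = (X : ℤ) := by rw [hX]; push_cast; ring
      rw [h2, Int.natCast_mod]
      exact (Int.mod_modEq _ _).symm
  · -- large `p`
    set J : ℕ := (p - 1) / (8 * n) with hJ
    have hn2 : n ≤ n ^ 2 := Nat.le_self_pow (by norm_num) n
    have h8 : 0 < 8 * n := by omega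
    have hJ1 : 8 * n * J ≤ p - 1 := Nat.mul_div_le _ _
    have hJ2 : 16 * n ≤ J := by
      rw [hJ, Nat.le_div_iff_mul_le h8]
      calc 16 * n * (8 * n) = 128 * n ^ 2 := by ring
        _ ≤ p - 1 := hbig
    have hJ3 : p - 1 < 8 * n * (J + 1) := Nat.lt_mul_div_succ _ h8
    have hJ0 : 0 < J := by omega
    have hJR : (0 : ℝ) < J := by exact_mod_cast hJ0
    set F : ℕ := (16 * n).factorial with hF
    have hE : ∀ l < n, ∃ a : ℤ,
        |(F : ℝ) * (((p ^ l * d : ℕ) : ℝ) / ((p ^ n - 1 : ℕ) : ℝ)) - a| ≤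
          F * (((16 * n : ℕ) : ℝ) / J) := by
      intro l hl
      obtain ⟨N, hN1, hN2, a, ha⟩ := close hp hn hL hL2 H hJ1 hJ2 l hl
      obtain ⟨c, hc⟩ : N ∣ F := Nat.dvd_factorial hN1 hN2
      refine ⟨c * a, ?_⟩
      have hc0 : (0 : ℝ) ≤ c := Nat.cast_nonneg _
      have hcF : (c : ℝ) ≤ F := by
        have : c ≤ F := by rw [hc]; exact Nat.le_mul_of_pos_left _ hN1
        exact_mod_cast this
      have e : (F : ℝ) * (((p ^ l * d : ℕ) : ℝ) / ((p ^ n - 1 : ℕ) : ℝ)) - ((c * a : ℤ) : ℝ) =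
          c * ((N : ℝ) * (((p ^ l * d : ℕ) : ℝ) / ((p ^ n - 1 : ℕ) : ℝ)) - a) := by
        rw [hc]; push_cast; ring
      rw [e, abs_mul, abs_of_nonneg hc0]
      exact mul_le_mul hcF ha (abs_nonneg _) (Nat.cast_nonneg _)
    obtain ⟨b, hb1, hb2⟩ := rel hn (by omega : 1 < p) hE
    refine ⟨b, ?_, hb2⟩
    intro i hi
    have h1 := hb1 i hi
    have h2 : ((p : ℝ) + 1) * (F * (((16 * n : ℕ) : ℝ) / J)) ≤ 512 * n ^ 2 * F := by
      have h3 : ((p : ℝ) + 1) ≤ 32 * n * J := by
        have : p + 1 ≤ 32 * n * J := by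
          have h4 : 8 * n * (J + 1) = 8 * n * J + 8 * n := by ring
          have h5 : 8 * n ≤ 8 * n * J := Nat.le_mul_of_pos_right _ hJ0
          have h6 : 32 * n * J = 4 * (8 * n * J) := by ring
          omega
        exact_mod_cast this
      have h4 : ((p : ℝ) + 1) * (F * (((16 * n : ℕ) : ℝ) / J)) =
          (((p : ℝ) + 1) / J) * (16 * n * F) := by
        push_cast
        ring
      rw [h4]
      have h5 : ((p : ℝ) + 1) / J ≤ 32 * n := by
        rw [div_le_iff₀ hJR]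
        exact h3
      calc (((p : ℝ) + 1) / J) * (16 * n * F) ≤ (32 * n) * (16 * n * F) :=
            mul_le_mul_of_nonneg_right h5 (by positivity)
        _ = 512 * n ^ 2 * F := by ring
    have h3 : |(b i : ℝ)| ≤ ((512 * n ^ 2 * F : ℕ) : ℝ) := by
      push_cast
      exact le_trans h1 h2
    have h4 : |b i| ≤ ((512 * n ^ 2 * F : ℕ) : ℤ) := by exact_mod_cast h3
    refine le_trans h4 ?_
    push_cast
    have : (0 : ℤ) ≤ (128 * (n : ℤ) ^ 2 + 1) ^ n := by positivity
    linarith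

end Pool.Agent.helper45.C0
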