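import Pool.Agent.helper45.C0.Core
import Pool.Agent.helper75.MS.ValsOf
import Pool.Agent.helper75.MS.M6b

set_option autoImplicit false

/-!
# Boundedly many three-valued decimations
-/

namespace Pool.Agent.helper45.C0

open Finset Pool.Agent.helper75.MS

/-- the exceptional spectrum, only for even `n` -/
def Exc (p n : ℕ) (R : Set ℂ) : Prop :=
  Even n ∧ ∃ a b s : ℕ, 0 < a ∧ 0 < b ∧ ¬ p ∣ a ∧ ¬ p ∣ b ∧ a + b = p ^ s ∧
    R = {-1, (p : ℂ) ^ (n / 2) * a - 1, -((p : ℂ) ^ (n / 2) * b) - 1}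

section
variable {p : ℕ} [Fact p.Prime] {K : Type} [Field K] [Fintype K] [DecidableEq K]
  [Algebra (ZMod p) K]

theorem exc_or_HS {d n : ℕ} (hp : 3 < p) (hn : 0 < n) (hq : Fintype.card K = p ^ n)
    (hd : Nat.Coprime d (p ^ n - 1))
    (h3 : (Set.range fun c : Kˣ => FF p d c).ncard = 3) :
    Exc p n (Set.range fun c : Kˣ => FF p d c) ∨ HS p n (n / 2 + 1) d := by
  obtain ⟨hd1, A, B, hA, hB, hv, hA1, hB1⟩ := three_vals hp hq hn hd h3
  have V0 := vals_aux hp hq hn hd hd1 hA hB hv hA1 hB1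
  obtain ⟨α, β, a, b, hAa, hBb, ha0, hb0, ha, hb, -, -, hc⟩ := V0.core
  have hdv : ∀ L : ℕ, L ≤ α → L ≤ β → HS p n L d := by
    intro L h1 h2 j hj1 hj2
    refine digit_sum hp hn hq hd hd1 (fun x => ?_) j hj1 hj2
    rcases hv x with h | h | h <;> rw [h]
    · exact dvd_zero _
    · rw [hAa]; exact Dvd.dvd.mul_right (pow_dvd_pow _ h1) _
    · rw [hBb]; exact (Dvd.dvd.mul_right (pow_dvd_pow _ h2) _).neg_right
  rcases hc with ⟨h1, h2⟩ | ⟨h1, h2⟩ | ⟨h1, h2, s, E, hs, hE, hle⟩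
  · right; exact hdv _ (by omega) (by omega)
  · right; exact hdv _ (by omega) (by omega)
  · rcases Nat.lt_or_ge n (2 * α) with h4 | h4
    · right; exact hdv _ (by omega) (by omega)
    · left
      obtain rfl : n = 2 * α := by omega
      subst h1
      have hpp : 0 < p ^ (2 * α) := Nat.pow_pos (by omega)
      have hE1 : E = 1 := by
        have h5 : E ≤ 1 := by
          have : E * p ^ (2 * α) ≤ 1 * p ^ (2 * α) := by rw [one_mul]; exact hle
          exact Nat.le_of_mul_le_mul_right this hpp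
        have h6 : E ≠ 0 := by rintro rfl; exact hE (dvd_zero _)
        omega
      rw [hE1, mul_one] at hs
      refine ⟨even_two_mul α, a, b, s, ha0, hb0, ha, hb, hs, ?_⟩
      have hd0 : d ≠ 0 := M1b_d_ne hp hd1
      have hval : ∀ c : Kˣ, FF p d c = (w p d (c : K) : ℂ) - 1 := by
        intro c
        have h1 : FF p d c + 1 = (w p d (c : K) : ℂ) := by
          rw [add_comm, ← FF_eq hd0 c, W_eq_w M1b_std_ne hp hd1]
        rw [← h1]; ring
      have h2α : 2 * α / 2 = α := by omega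
      rw [h2α]
      have hsub : (Set.range fun c : Kˣ => FF p d c) ⊆
          {-1, (p : ℂ) ^ α * a - 1, -((p : ℂ) ^ α * b) - 1} := by
        rintro _ ⟨c, rfl⟩
        simp only [Set.mem_insert_iff, Set.mem_singleton_iff]
        rw [hval c]
        rcases hv (c : K) with h | h | h
        · left; rw [h]; simp
        · right; left; rw [h, hAa]; push_cast; ring
        · right; right; rw [h, hBb]; push_cast; ring
      have hfin : ({-1, (p : ℂ) ^ α * a - 1, -((p : ℂ) ^ α * b) - 1} : Set ℂ).Finite := by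
        exact Set.toFinite _
      have hcard : ({-1, (p : ℂ) ^ α * a - 1, -((p : ℂ) ^ α * b) - 1} : Set ℂ).ncard ≤ 3 := by
        refine le_trans (Set.ncard_insert_le _ _) ?_
        have h7 := Set.ncard_insert_le ((p : ℂ) ^ α * a - 1) {-((p : ℂ) ^ α * b) - 1}
        rw [Set.ncard_singleton] at h7
        omega
      exact Set.eq_of_subset_of_ncard_le hsub (by rw [h3]; exact hcard) hfin

end

/-- counting -/
theorem count {n p N B M : ℕ} (hN : 0 < N) (hM : 0 < M) (P : Set ℕ)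
    (hP : ∀ d ∈ P, d < M ∧ ∃ b : Fin n → ℤ, (∀ i, |b i| ≤ (B : ℤ)) ∧
      (N : ℤ) * d ≡ ∑ i : Fin n, b i * (p : ℤ) ^ (i : ℕ) [ZMOD (M : ℤ)]) :
    P.ncard ≤ N * (2 * B + 1) ^ n := by
  classical
  set f : ℕ × (Fin n → ℤ) → ℕ := fun z =>
    (M * z.1 + ((∑ i : Fin n, z.2 i * (p : ℤ) ^ (i : ℕ)) % (M : ℤ)).toNat) / N with hf
  set T : Finset (ℕ × (Fin n → ℤ)) :=
    range N ×ˢ Fintype.piFinset (fun _ : Fin n => Finset.Icc (-(B : ℤ)) B) with hT
  have hMZ : (M : ℤ) ≠ 0 := by exact_mod_cast hM.ne'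
  have hsub : P ⊆ ((T.image f : Finset ℕ) : Set ℕ) := by
    intro d hd
    obtain ⟨hdM, b, hb, hmod⟩ := hP d hd
    rw [Finset.mem_coe, Finset.mem_image]
    refine ⟨((N * d) / M, b), ?_, ?_⟩
    · rw [hT, Finset.mem_product]
      refine ⟨?_, ?_⟩
      · simp only [mem_range]
        apply Nat.div_lt_of_lt_mul
        rw [mul_comm M N]
        exact Nat.mul_lt_mul_of_pos_left hdM hN
      · rw [Fintype.mem_piFinset]
        intro i
        rw [Finset.mem_Icc]
        exact abs_le.1 (hb i)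
    · have h1 : ((∑ i : Fin n, b i * (p : ℤ) ^ (i : ℕ)) % (M : ℤ)).toNat = (N * d) % M := by
        have h2 : (∑ i : Fin n, b i * (p : ℤ) ^ (i : ℕ)) % (M : ℤ) = (((N * d) % M : ℕ) : ℤ) := by
          rw [Int.natCast_mod]
          push_cast
          exact hmod.symm
        rw [h2, Int.toNat_natCast]
      simp only [hf]
      rw [h1, Nat.div_add_mod]
      exact Nat.mul_div_cancel_left _ hN
  have hcard : T.card = N * (2 * B + 1) ^ n := by
    rw [hT, Finset.card_product, card_range, Fintype.card_piFinset]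
    simp only [Int.card_Icc, Finset.prod_const, Finset.card_univ, Fintype.card_fin]
    congr 2
    omega
  calc P.ncard ≤ ((T.image f : Finset ℕ) : Set ℕ).ncard :=
        Set.ncard_le_ncard hsub (Finset.finite_toSet _)
    _ = (T.image f).card := Set.ncard_coe_finset _
    _ ≤ T.card := Finset.card_image_le
    _ = _ := hcard

theorem final (n : ℕ) (hn : 0 < n) : ∃ N B : ℕ, 0 < N ∧ ∀ p : ℕ, p.Prime → 3 < p →
    ∀ (K : Type) [Field K] [Fintype K] [DecidableEq K] [Algebra (ZMod p) K],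
      Fintype.card K = p ^ n → ∀ F : ℕ → Set ℂ,
      (∀ d, F d = Set.range (fun c : Kˣ => ∑ x : Kˣ,
          Complex.exp (2 * (Real.pi : ℂ) * Complex.I *
            (((Algebra.trace (ZMod p) K ((c : K) * (x : K) - (x : K) ^ d)).val : ℕ) : ℂ)
            / (p : ℂ)))) →
      (∀ d : ℕ, Nat.Coprime d (p ^ n - 1) → (F d).ncard = 3 → Exc p n (F d) ∨
        ∃ b : Fin n → ℤ, (∀ i, |b i| ≤ (B : ℤ)) ∧
          (N : ℤ) * d ≡ ∑ i : Fin n, b i * (p : ℤ) ^ (i : ℕ) [ZMOD (p : ℤ) ^ n - 1]) ∧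
      {d : ℕ | d < p ^ n - 1 ∧ Nat.Coprime d (p ^ n - 1) ∧ (F d).ncard = 3 ∧
        ¬ Exc p n (F d)}.ncard ≤ N * (2 * B + 1) ^ n := by
  refine ⟨(16 * n).factorial, 512 * n ^ 2 * (16 * n).factorial + (128 * n ^ 2 + 1) ^ n,
    Nat.factorial_pos _, ?_⟩
  intro p hp hp3 K _ _ _ _ hq F hF
  haveI : Fact p.Prime := ⟨hp⟩
  have hpn : p ≤ p ^ n := by
    calc p = p ^ 1 := (pow_one p).symm
      _ ≤ p ^ n := Nat.pow_le_pow_right (by omega) hn
  have hM : (((p ^ n - 1 : ℕ) : ℕ) : ℤ) = (p : ℤ) ^ n - 1 := by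
    rw [Nat.cast_sub (by omega)]
    push_cast
    ring
  have key : ∀ d : ℕ, Nat.Coprime d (p ^ n - 1) → (F d).ncard = 3 → Exc p n (F d) ∨
        ∃ b : Fin n → ℤ, (∀ i, |b i| ≤
          ((512 * n ^ 2 * (16 * n).factorial + (128 * n ^ 2 + 1) ^ n : ℕ) : ℤ)) ∧
          (((16 * n).factorial : ℕ) : ℤ) * d ≡ ∑ i : Fin n, b i * (p : ℤ) ^ (i : ℕ)
            [ZMOD ((p ^ n - 1 : ℕ) : ℤ)] := by
    intro d hd h3
    have hFd : F d = Set.range (fun c : Kˣ => FF p d c) := hF d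
    rw [hFd] at h3 ⊢
    rcases exc_or_HS hp3 hn hq hd h3 with h | h
    · exact Or.inl h
    · right
      obtain ⟨b, hb1, hb2⟩ := bounded hp3 hn (by omega) (by omega) h
      refine ⟨fun i => b i, fun i => hb1 i i.2, ?_⟩
      rw [Finset.sum_range] at hb2
      exact hb2
  refine ⟨?_, ?_⟩
  · intro d hd h3
    rw [← hM]
    exact key d hd h3
  · apply count (p := p) (M := p ^ n - 1) (Nat.factorial_pos _) (by omega)
    rintro d ⟨h1, h2, h3, h4⟩
    refine ⟨h1, ?_⟩
    rcases key d h2 h3 with h | h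
    · exact absurd h h4
    · exact h

end Pool.Agent.helper45.C0
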